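import Pool.Agent.H84.FK.Targets

/-!
# Module BS of the board fk_modules (MP_85c4d1_al): the Baer-Suzuki theorem for `p = 2`
-/

set_option autoImplicit false
set_option linter.unusedVariables false

namespace Pool.Agent.H67.FK

open Pool.Agent.H84.FK

/-- two involutions whose product has order a power of two generate a `2`-group -/
theorem two_group {G : Type} [Group G] (x y : G) (hx : x * x = 1) (hy : y * y = 1) (k : ℕ)
    (hk : (x * y) ^ (2 ^ k) = 1) : IsPGroup 2 (Subgroup.closure {x, y}) := by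
  have hxi : x⁻¹ = x := inv_eq_of_mul_eq_one_left hx
  have hyi : y⁻¹ = y := inv_eq_of_mul_eq_one_left hy
  have hr : ∀ i : ℤ, x * (x * y) ^ i = (x * y) ^ (-i) * x := by
    intro i
    have h1 : x * (x * y) * x⁻¹ = (x * y)⁻¹ := by
      rw [mul_inv_rev, hxi, hyi, ← mul_assoc x x y, hx, one_mul]
    have h2 : x * (x * y) ^ i * x⁻¹ = (x * y) ^ (-i) := by
      rw [← conj_zpow, h1, inv_zpow, zpow_neg]
    rw [← h2, inv_mul_cancel_right]
  have hall : ∀ g ∈ Subgroup.closure ({x, y} : Set G), ∃ i : ℤ, g = (x * y) ^ i ∨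
      g = (x * y) ^ i * x := by
    intro g hg
    induction hg using Subgroup.closure_induction with
    | mem g hg =>
      rcases hg with rfl | hg
      · exact ⟨0, Or.inr (by simp)⟩
      · rw [Set.mem_singleton_iff] at hg
        subst hg
        refine ⟨-1, Or.inr ?_⟩
        rw [zpow_neg_one, mul_inv_rev, hxi, hyi, mul_assoc, hx, mul_one]
    | one => exact ⟨0, Or.inl (by simp)⟩
    | mul a b _ _ iha ihb =>
      obtain ⟨i, rfl | rfl⟩ := iha
      · obtain ⟨j, rfl | rfl⟩ := ihb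
        · exact ⟨i + j, Or.inl (by rw [zpow_add])⟩
        · exact ⟨i + j, Or.inr (by rw [zpow_add, mul_assoc])⟩
      · obtain ⟨j, rfl | rfl⟩ := ihb
        · refine ⟨i + -j, Or.inr ?_⟩
          rw [mul_assoc, hr, zpow_add, mul_assoc]
        · refine ⟨i + -j, Or.inl ?_⟩
          rw [mul_assoc, ← mul_assoc x, hr, mul_assoc, hx, mul_one, zpow_add]
    | inv a _ iha =>
      obtain ⟨i, rfl | rfl⟩ := iha
      · exact ⟨-i, Or.inl (by rw [zpow_neg])⟩
      · refine ⟨i, Or.inr ?_⟩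
        rw [mul_inv_rev, hxi, ← zpow_neg, hr, neg_neg]
  rintro ⟨g, hg⟩
  obtain ⟨i, h | h⟩ := hall g hg
  · refine ⟨k, ?_⟩
    apply Subtype.ext
    show g ^ (2 ^ k) = 1
    rw [h, ← zpow_natCast, ← zpow_mul, mul_comm, zpow_mul, zpow_natCast, hk, one_zpow]
  · refine ⟨1, ?_⟩
    apply Subtype.ext
    show g ^ (2 ^ 1) = 1
    rw [h, pow_one, pow_two, mul_assoc, ← mul_assoc x, hr, mul_assoc, hx, mul_one, ← zpow_add,
      add_neg_cancel, zpow_zero]

/-- the normaliser condition, applied to a set closed under conjugation -/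
theorem claim {G : Type} [Group G] [Finite G] (K : Set G) (hK : ∀ g x : G, x ∈ K → g * x * g⁻¹ ∈ K)
    (P : Subgroup G) (hP : IsPGroup 2 P) (Δ : Set G) (hΔP : ∀ x ∈ Δ, x ∈ P) (hΔK : Δ ⊆ K)
    (hne : ∃ x ∈ P, x ∈ K ∧ x ∉ Δ) :
    ∃ x ∈ P, x ∈ K ∧ x ∉ Δ ∧ x ∈ Subgroup.normalizer (Subgroup.closure Δ : Set G) := by
  by_contra hcon
  push Not at hcon
  set D : Subgroup G := Subgroup.closure Δ with hD
  set H1 : Subgroup P := (Subgroup.normalizer (D : Set G)).subgroupOf P with hH1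
  have hlt : H1 < ⊤ := by
    rw [lt_top_iff_ne_top]
    intro htop
    obtain ⟨x, hxP, hxK, hxΔ⟩ := hne
    apply hcon x hxP hxK hxΔ
    have : (⟨x, hxP⟩ : P) ∈ H1 := by rw [htop]; exact Subgroup.mem_top _
    exact Subgroup.mem_subgroupOf.mp this
  have : Fact (Nat.Prime 2) := ⟨Nat.prime_two⟩
  have : Group.IsNilpotent P := hP.isNilpotent
  obtain ⟨g, hg, hgn⟩ := SetLike.exists_of_lt (Group.normalizerCondition_of_isNilpotent H1 hlt)
  apply hgn
  rw [hH1, Subgroup.mem_subgroupOf]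
  have hmem : ∀ δ ∈ Δ, ∀ h : P, h ∈ Subgroup.normalizer (H1 : Set P) →
      (h : G) * δ * (h : G)⁻¹ ∈ D := by
    intro δ hδ h hh
    have h1 : (⟨δ, hΔP δ hδ⟩ : P) ∈ H1 := by
      rw [hH1, Subgroup.mem_subgroupOf]
      exact Subgroup.le_normalizer (Subgroup.subset_closure hδ)
    have h2 : h * ⟨δ, hΔP δ hδ⟩ * h⁻¹ ∈ H1 := (Subgroup.mem_normalizer_iff.mp hh _).mp h1
    rw [hH1, Subgroup.mem_subgroupOf] at h2
    by_contra h3
    apply hcon ((h : G) * δ * (h : G)⁻¹) (h * ⟨δ, hΔP δ hδ⟩ * h⁻¹).2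
      (hK h δ (hΔK hδ)) ?_ h2
    intro h4
    exact h3 (Subgroup.subset_closure h4)
  have hmemD : ∀ h : P, h ∈ Subgroup.normalizer (H1 : Set P) → ∀ d ∈ D,
      (h : G) * d * (h : G)⁻¹ ∈ D := by
    intro h hh d hd
    rw [hD] at hd
    induction hd using Subgroup.closure_induction with
    | mem d hd => exact hmem d hd h hh
    | one => simp
    | mul a b _ _ iha ihb =>
      have e : (h : G) * (a * b) * (h : G)⁻¹
          = ((h : G) * a * (h : G)⁻¹) * ((h : G) * b * (h : G)⁻¹) := by group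
      rw [e]
      exact D.mul_mem iha ihb
    | inv a _ iha =>
      have e : (h : G) * a⁻¹ * (h : G)⁻¹ = ((h : G) * a * (h : G)⁻¹)⁻¹ := by group
      rw [e]
      exact D.inv_mem iha
  rw [Subgroup.mem_normalizer_iff]
  intro d
  constructor
  · exact hmemD g hg d
  · intro hd
    have := hmemD g⁻¹ (Subgroup.inv_mem _ hg) _ hd
    have e : ((g⁻¹ : P) : G) * ((g : G) * d * (g : G)⁻¹) * ((g⁻¹ : P) : G)⁻¹ = d := by
      push_cast
      group
    rwa [e] at this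

theorem pf_bs : T_BS := by
  intro G _ _ z hz hgz
  have : Fact (Nat.Prime 2) := ⟨Nat.prime_two⟩
  set K : Set G := {x | ∃ g : G, x = g * z * g⁻¹} with hKdef
  have hK : ∀ g x : G, x ∈ K → g * x * g⁻¹ ∈ K := by
    rintro g _ ⟨a, rfl⟩
    exact ⟨g * a, by group⟩
  have hzK : z ∈ K := ⟨1, by simp⟩
  have hKsq : ∀ x ∈ K, x * x = 1 := by
    rintro _ ⟨a, rfl⟩
    have : a * z * a⁻¹ * (a * z * a⁻¹) = a * (z * z) * a⁻¹ := by group
    rw [this, hz]; group
  have hK2 : ∀ x ∈ K, ∀ y ∈ K, IsPGroup 2 (Subgroup.closure {x, y}) := by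
    rintro x hx y hy
    obtain ⟨a, ha⟩ := id hx
    obtain ⟨b, hb⟩ := id hy
    obtain ⟨k, hk⟩ := hgz (a⁻¹ * b)
    refine two_group x y (hKsq x hx) (hKsq y hy) k ?_
    have e : x * y = a * (z * (a⁻¹ * b * z * (a⁻¹ * b)⁻¹)) * a⁻¹ := by
      rw [ha, hb]; group
    rw [e, conj_pow, hk]; group
  -- a Sylow subgroup which contains the class
  have hfin : ∀ P : Sylow 2 G, (∀ x ∈ K, x ∈ P) →
      ∃ N : Subgroup G, N.Normal ∧ IsPGroup 2 N ∧ z ∈ N := by
    intro P hP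
    refine ⟨Subgroup.normalClosure {z}, Subgroup.normalClosure_normal, ?_,
      Subgroup.subset_normalClosure (Set.mem_singleton z)⟩
    have hle : Subgroup.normalClosure {z} ≤ (P : Subgroup G) := by
      rw [Subgroup.normalClosure, Subgroup.closure_le]
      intro x hx
      rw [Group.mem_conjugatesOfSet_iff] at hx
      obtain ⟨a, ha, hax⟩ := hx
      rw [Set.mem_singleton_iff] at ha
      subst ha
      rw [isConj_iff] at hax
      obtain ⟨c, hc⟩ := hax
      exact hP x ⟨c, hc.symm⟩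
    exact P.isPGroup'.to_le hle
  by_contra hcon
  -- the sets `P ∩ K`
  have hcard : ∀ P Q : Sylow 2 G, ((P : Set G) ∩ K).ncard = ((Q : Set G) ∩ K).ncard := by
    intro P Q
    obtain ⟨g, hg⟩ := MulAction.exists_smul_eq G P Q
    have himg : (fun x => g * x * g⁻¹) '' ((P : Set G) ∩ K) = (Q : Set G) ∩ K := by
      ext y
      constructor
      · rintro ⟨x, ⟨hxP, hxK⟩, rfl⟩
        refine ⟨?_, hK g x hxK⟩
        rw [← hg]
        show g * x * g⁻¹ ∈ ((g • P : Sylow 2 G) : Subgroup G)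
        rw [Sylow.coe_subgroup_smul]
        exact ⟨x, hxP, rfl⟩
      · rintro ⟨hyQ, hyK⟩
        refine ⟨g⁻¹ * y * g, ⟨?_, ?_⟩, by group⟩
        · rw [← hg] at hyQ
          have hyQ' : y ∈ ((g • P : Sylow 2 G) : Subgroup G) := hyQ
          rw [Sylow.coe_subgroup_smul] at hyQ'
          obtain ⟨x, hx, hxy⟩ := hyQ'
          have : y = g * x * g⁻¹ := hxy.symm
          rw [this]
          have e : g⁻¹ * (g * x * g⁻¹) * g = x := by group
          rw [e]; exact hx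
        · have := hK g⁻¹ y hyK
          rwa [inv_inv] at this
    rw [← himg]
    exact (Set.ncard_image_of_injective _ (fun a b h => by
      have h' : g * a * g⁻¹ = g * b * g⁻¹ := h
      exact mul_left_cancel (mul_right_cancel h'))).symm
  have hnot : ∀ P Q : Sylow 2 G, (P : Set G) ∩ K ≠ (Q : Set G) ∩ K →
      ∃ x ∈ P, x ∈ K ∧ x ∉ (P : Set G) ∩ (Q : Set G) ∩ K := by
    intro P Q hPQ
    by_contra h
    push Not at h
    apply hPQ
    apply Set.eq_of_subset_of_ncard_le _ (hcard P Q).ge (Set.toFinite _)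
    rintro x ⟨hxP, hxK⟩
    exact ⟨(h x hxP hxK).1.2, hxK⟩
  have hexist : ∃ P Q : Sylow 2 G, (P : Set G) ∩ K ≠ (Q : Set G) ∩ K := by
    by_contra h
    push Not at h
    obtain ⟨P⟩ : Nonempty (Sylow 2 G) := inferInstance
    apply hcon
    apply hfin P
    intro x hx
    have hxp : IsPGroup 2 (Subgroup.closure {x, x}) := hK2 x hx x hx
    obtain ⟨Q, hQ⟩ := hxp.exists_le_sylow
    have hxQ : x ∈ (Q : Set G) ∩ K := ⟨hQ (Subgroup.subset_closure (by simp)), hx⟩
    rw [← h P Q] at hxQ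
    exact hxQ.1
  -- a pair with maximal intersection
  obtain ⟨P0, Q0, h0⟩ := hexist
  have : Nonempty {pq : Sylow 2 G × Sylow 2 G // (pq.1 : Set G) ∩ K ≠ (pq.2 : Set G) ∩ K} :=
    ⟨⟨(P0, Q0), h0⟩⟩
  obtain ⟨⟨⟨P, Q⟩, hPQ⟩, hmax⟩ := Finite.exists_max
    (fun pq : {pq : Sylow 2 G × Sylow 2 G // (pq.1 : Set G) ∩ K ≠ (pq.2 : Set G) ∩ K} =>
      ((pq.1.1 : Set G) ∩ (pq.1.2 : Set G) ∩ K).ncard)
  have hmax' : ∀ P' Q' : Sylow 2 G, (P' : Set G) ∩ K ≠ (Q' : Set G) ∩ K →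
      ((P' : Set G) ∩ (Q' : Set G) ∩ K).ncard ≤ ((P : Set G) ∩ (Q : Set G) ∩ K).ncard :=
    fun P' Q' h => hmax ⟨(P', Q'), h⟩
  have hPQ' : (P : Set G) ∩ K ≠ (Q : Set G) ∩ K := hPQ
  set Δ : Set G := (P : Set G) ∩ (Q : Set G) ∩ K with hΔ
  obtain ⟨x, hxP, hxK, hxΔ, hxN⟩ := claim K hK P P.isPGroup' Δ (fun x hx => hx.1.1)
    (fun x hx => hx.2) (hnot P Q hPQ')
  obtain ⟨y, hyQ, hyK, hyΔ, hyN⟩ := claim K hK Q Q.isPGroup' Δ (fun x hx => hx.1.2)
    (fun x hx => hx.2) (by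
      obtain ⟨y, h1, h2, h3⟩ := hnot Q P hPQ'.symm
      exact ⟨y, h1, h2, fun h => h3 ⟨⟨h.1.2, h.1.1⟩, h.2⟩⟩)
  set D : Subgroup G := Subgroup.closure Δ with hD
  have hDP : IsPGroup 2 D := P.isPGroup'.to_le (by
    rw [hD, Subgroup.closure_le]
    exact fun x hx => hx.1.1)
  have hE : Subgroup.closure {x, y} ≤ Subgroup.normalizer (D : Set G) := by
    rw [Subgroup.closure_le]
    intro w hw
    rcases hw with rfl | hw
    · exact hxN
    · rw [Set.mem_singleton_iff] at hw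
      rw [hw]; exact hyN
  obtain ⟨R, hR⟩ := (IsPGroup.to_sup_of_normal_right' (hK2 x hxK y hyK) hDP hE).exists_le_sylow
  have hxR : x ∈ R := hR (Subgroup.mem_sup_left (Subgroup.subset_closure (by simp)))
  have hyR : y ∈ R := hR (Subgroup.mem_sup_left (Subgroup.subset_closure (by simp)))
  have hΔR : ∀ w ∈ Δ, w ∈ R := fun w hw => hR (Subgroup.mem_sup_right (Subgroup.subset_closure hw))
  have hlt : ∀ (S : Sylow 2 G) (w : G), w ∈ S → w ∈ K → w ∉ Δ → w ∈ R → (∀ v ∈ Δ, v ∈ S) →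
      (S : Set G) ∩ K = (R : Set G) ∩ K := by
    intro S w hwS hwK hwΔ hwR hΔS
    by_contra hne
    have h1 := hmax' S R hne
    have h2 : insert w Δ ⊆ (S : Set G) ∩ (R : Set G) ∩ K := by
      intro v hv
      rcases hv with rfl | hv
      · exact ⟨⟨hwS, hwR⟩, hwK⟩
      · exact ⟨⟨hΔS v hv, hΔR v hv⟩, hv.2⟩
    have h3 := Set.ncard_le_ncard h2 (Set.toFinite _)
    rw [Set.ncard_insert_of_notMem hwΔ (Set.toFinite _)] at h3
    omega
  apply hPQ'
  rw [hlt P x hxP hxK hxΔ hxR (fun v hv => hv.1.1), hlt Q y hyQ hyK hyΔ hyR (fun v hv => hv.1.2)]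

end Pool.Agent.H67.FK
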