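import Pool.Agent.H84.FK.Targets

/-!
# Module S2 of the board fk_modules (MP_85c4d1_al)
-/

set_option autoImplicit false
set_option linter.unusedVariables false

namespace Pool.Agent.H67.FK

open Pool.Agent.H84.FK

theorem pf_s2 : T_S2 := by
  intro G _ B0 hab htwo
  have hconj : ∀ g : G, ∀ b ∈ B0, g * b * g⁻¹ ∈ B0 := by
    intro g b hb
    by_cases hg : g ∈ B0
    · exact B0.mul_mem (B0.mul_mem hg hb) (B0.inv_mem hg)
    · refine htwo (g * b) g⁻¹ ?_ ?_
      · intro h
        apply hg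
        have := B0.mul_mem h (B0.inv_mem hb)
        rwa [mul_inv_cancel_right] at this
      · intro h
        exact hg (by simpa using B0.inv_mem h)
  have hcomm : ∀ x y : G, x * y * x⁻¹ * y⁻¹ ∈ B0 := by
    intro x y
    by_cases hx : x ∈ B0
    · have h1 := hconj y x⁻¹ (B0.inv_mem hx)
      have h2 := B0.mul_mem hx h1
      have e : x * (y * x⁻¹ * y⁻¹) = x * y * x⁻¹ * y⁻¹ := by group
      rwa [e] at h2
    · by_cases hy : y ∈ B0
      · exact B0.mul_mem (hconj x y hy) (B0.inv_mem hy)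
      · have hx' : x⁻¹ ∉ B0 := fun h => hx (by simpa using B0.inv_mem h)
        have hy' : y⁻¹ ∉ B0 := fun h => hy (by simpa using B0.inv_mem h)
        have h1 := B0.mul_mem (htwo x y hx hy) (htwo x⁻¹ y⁻¹ hx' hy')
        have e : x * y * (x⁻¹ * y⁻¹) = x * y * x⁻¹ * y⁻¹ := by group
        rwa [e] at h1
  have h1 : derivedSeries G 1 ≤ B0 := by
    rw [derivedSeries_one]
    rw [commutator_def, Subgroup.commutator_le]
    intro x _ y _
    exact hcomm x y
  refine ⟨2, ?_⟩
  rw [eq_bot_iff]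
  show derivedSeries G (1 + 1) ≤ ⊥
  rw [derivedSeries_succ, Subgroup.commutator_le]
  intro x hx y hy
  rw [Subgroup.mem_bot, commutatorElement_eq_one_iff_mul_comm]
  exact hab x (h1 hx) y (h1 hy)

end Pool.Agent.H67.FK
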